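import Pool.Agent.Y262.NU.Stm

/-!
# Project NU, block ABS1: lower bounds on the eigenvectors are closed
-/

set_option autoImplicit false

open Set Filter Topology MeasureTheory
open scoped Real

namespace Pool.Agent.Y865.NU

open Pool.Agent.Y262.QE Pool.Agent.Y262.NU

theorem exp_le {x : ℝ} (h0 : 0 ≤ x) (h1 : x ≤ 1) : Real.exp x ≤ 1 + 2 * x := by
  have h := Real.abs_exp_sub_one_sub_id_le (x := x) (by rw [abs_of_nonneg h0]; exact h1)
  have h2 := (abs_le.1 h).2
  nlinarith

theorem abs1 (hSp : StSp) (hMM : StMM) (hMon : StMon) (hTop : StTop) (hVar1 : StVar1) :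
    StAbs1 := by
  intro H _ _ _ a b k K F m lo ε hm hlo hε hyp lam u hlam hu
  have hK : 1 ≤ K := F.one
  have hK0 : 0 < K := by linarith
  have hlam0 : 0 < lam := by linarith
  have hfm : ∀ t τ, Fm a (b t τ) := fun t τ => (F.fly τ).fm t
  have hk0 : ∀ t τ v, 0 ≤ k t τ v v := fun t τ v => ((F.fly τ).kb t v).1
  suffices hone : ∀ u : H, (∀ w, a u w = lam * b 0 0 u w) → b 0 0 u u = 1 → m ≤ k 0 0 u u by
    rcases ((hfm 0 0).nb u).eq_or_lt with h0 | h0
    · rw [← h0, mul_zero]
      exact hk0 0 0 u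
    · obtain ⟨s, hs⟩ : ∃ s, s = Real.sqrt (b 0 0 u u) := ⟨_, rfl⟩
      have hs0 : 0 < s := by
        rw [hs]
        exact Real.sqrt_pos.2 h0
      have hss : s * s = b 0 0 u u := by
        rw [hs]
        exact Real.mul_self_sqrt h0.le
      have h1 := hone (s⁻¹ • u) (fun w => by
        simp only [map_smul, ContinuousLinearMap.smul_apply, smul_eq_mul, hu w]
        ring) (by
        simp only [map_smul, ContinuousLinearMap.smul_apply, smul_eq_mul]
        rw [← hss]
        field_simp)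
      simp only [map_smul, ContinuousLinearMap.smul_apply, smul_eq_mul] at h1
      have h2 : s⁻¹ * (s⁻¹ * k 0 0 u u) = k 0 0 u u / (b 0 0 u u) := by
        rw [← hss]
        field_simp
      rw [h2, le_div_iff₀ h0] at h1
      exact h1
  clear hu u
  intro u hu h1
  -- spectral data
  obtain ⟨e, E, hE⟩ := hSp H a (b 0 0) (hfm 0 0)
  have hev : ∃ i, E i = lam := by
    by_contra hcon
    push Not at hcon
    have hz : ∀ i, b 0 0 u (e i) = 0 := by
      intro i
      have h2 := hu (e i)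
      have h3 := hE.eig i u
      rw [(hfm 0 0).sa u (e i), h3, (hfm 0 0).sb (e i) u] at h2
      have h4 : (E i - lam) * b 0 0 u (e i) = 0 := by linear_combination h2
      exact (mul_eq_zero.1 h4).resolve_left (sub_ne_zero.2 (hcon i))
    have h5 := hE.sum u
    have h6 : (fun j => (b 0 0 u (e j)) ^ 2) = fun _ => (0 : ℝ) := by
      funext j
      rw [hz j]
      norm_num
    rw [h6] at h5
    have h7 : b 0 0 u u = 0 := h5.unique hasSum_zero
    rw [h1] at h7
    exact one_ne_zero h7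
  obtain ⟨i0, hi0⟩ := hev
  have hex : ∃ n, lam < E n := (hE.tt.eventually_gt_atTop lam).exists
  classical
  obtain ⟨n0, hn0, hmin⟩ : ∃ n0, lam < E n0 ∧ ∀ n < n0, E n ≤ lam :=
    ⟨Nat.find hex, Nat.find_spec hex, fun n hn => not_lt.1 (Nat.find_min hex hn)⟩
  have hi0n : i0 < n0 := by
    by_contra h
    push Not at h
    have := hE.mono h
    linarith
  obtain ⟨j, rfl⟩ : ∃ j, n0 = j + 1 := ⟨n0 - 1, by omega⟩
  have hEj : E j = lam := by
    apply le_antisymm (hmin j (by omega))
    have := hE.mono (show i0 ≤ j by omega)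
    linarith
  have hEv : Ev a (b 0 0) j = lam := by rw [hMM H a (b 0 0) (hfm 0 0) e E hE j, hEj]
  have hb1 : ∀ t τ v, 0 ≤ t → 0 ≤ τ → b 0 0 v v ≤ b t τ v v := by
    intro t τ v ht hτ
    have h2 := (F.tau 0 τ v hτ).1
    have h3 := (F.fly τ).up 0 t v ht
    simp only [zero_add] at h3
    have h4 := mul_nonneg ht (hk0 0 τ v)
    linarith
  have hb2 : ∀ t τ v, 0 ≤ t → 0 ≤ τ →
      b t τ v v ≤ Real.exp (K * (t + τ)) * b 0 0 v v := by
    intro t τ v ht hτ
    have h2 := (F.tau 0 τ v hτ).2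
    have h3 := (F.fly τ).ub 0 t v ht
    simp only [zero_add] at h3
    have h4 := mul_le_mul_of_nonneg_left h2 (Real.exp_pos (K * t)).le
    rw [mul_add, Real.exp_add, mul_assoc]
    linarith
  have hlow : ∀ t τ, 0 ≤ t → 0 ≤ τ → lam ≤ Real.exp (K * (t + τ)) * Ev a (b t τ) j := by
    intro t τ ht hτ
    have h2 := (hMon H a (b t τ) (b 0 0) (hfm _ _) (hfm _ _) _ (Real.exp_pos (K * (t + τ)))
      (fun v => hb2 t τ v ht hτ) j).2
    rwa [hEv] at h2
  have hup0 : ∀ τ, 0 ≤ τ → Ev a (b 0 τ) j ≤ lam := by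
    intro τ hτ
    have h2 := (hMon H a (b 0 0) (b 0 τ) (hfm _ _) (hfm _ _) 1 one_pos
      (fun v => by rw [one_mul]; exact hb1 0 τ v le_rfl hτ) j).2
    rwa [hEv, one_mul] at h2
  obtain ⟨ρ, hρ0, hρ⟩ : ∃ ρ : ℝ, 0 < ρ ∧ ∀ x, 0 ≤ x → x < ρ → lo * Real.exp (K * x) < lam := by
    have hc : Continuous fun x : ℝ => lo * Real.exp (K * x) := by fun_prop
    have h2 : ∀ᶠ x in 𝓝 (0 : ℝ), lo * Real.exp (K * x) < lam := by
      refine (hc.tendsto 0).eventually (gt_mem_nhds ?_)
      simpa using hlam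
    obtain ⟨ρ, hρ, h3⟩ := Metric.eventually_nhds_iff.1 h2
    exact ⟨ρ, hρ, fun x hx hxρ => h3 (by rw [Real.dist_eq, sub_zero, abs_of_nonneg hx]; exact hxρ)⟩
  have hlo' : ∀ t τ, 0 ≤ t → 0 ≤ τ → t + τ < ρ → lo < Ev a (b t τ) j := by
    intro t τ ht hτ h
    have h2 := hlow t τ ht hτ
    have h3 := hρ (t + τ) (by linarith) h
    have h4 := Real.exp_pos (K * (t + τ))
    by_contra hc
    push Not at hc
    have h5 := mul_le_mul_of_nonneg_left hc h4.le
    linarith [mul_comm lo (Real.exp (K * (t + τ)))]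
  have hdec : ∀ t, 0 < t → t < ε → t < ρ / 2 →
      Ev a (b t 0) j ≤ Real.exp (-(m * t)) * lam := by
    intro t ht htε htρ
    have hτ : ∀ τ, 0 < τ → τ < ε → τ < ρ / 2 →
        Ev a (b t 0) j ≤ Real.exp (K * τ) * (Real.exp (-(m * t)) * lam) := by
      intro τ hτ0 hτε hτρ
      have h2 := hVar1 H a (fun s => b s τ) (fun s => k s τ) K (F.fly τ) 0 t m j ht.le hm (by
        intro s hs v hv
        exact hyp s ⟨hs.1, hs.2.trans htε⟩ τ ⟨hτ0, hτε⟩ _ v
          (hlo' s τ hs.1.le hτ0.le (by linarith [hs.2])) hv)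
      have h3 := (hMon H a (b t τ) (b t 0) (hfm _ _) (hfm _ _) _ (Real.exp_pos (K * τ))
        (fun v => (F.tau t τ v hτ0.le).2) j).2
      refine h3.trans (mul_le_mul_of_nonneg_left (h2.trans ?_) (Real.exp_pos _).le)
      rw [sub_zero]
      exact mul_le_mul_of_nonneg_left (hup0 τ hτ0.le) (Real.exp_pos _).le
    have hlim : Tendsto (fun τ : ℝ => Real.exp (K * τ) * (Real.exp (-(m * t)) * lam))
        (𝓝[>] 0) (𝓝 (Real.exp (-(m * t)) * lam)) := by
      have hc : Continuous fun τ : ℝ => Real.exp (K * τ) * (Real.exp (-(m * t)) * lam) := by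
        fun_prop
      have h2 := (hc.tendsto 0).mono_left (nhdsWithin_le_nhds (s := Ioi (0 : ℝ)))
      simpa using h2
    refine ge_of_tendsto hlim ?_
    have hmem : Ioo (0 : ℝ) (min ε (ρ / 2)) ∈ 𝓝[>] (0 : ℝ) :=
      Ioo_mem_nhdsGT (lt_min hε (by linarith))
    filter_upwards [hmem] with τ hτm
    exact hτ τ hτm.1 (hτm.2.trans_le (min_le_left _ _)) (hτm.2.trans_le (min_le_right _ _))
  obtain ⟨G, hGd⟩ : ∃ G, G = E (j + 1) - lam := ⟨_, rfl⟩
  have hG : 0 < G := by rw [hGd]; linarith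
  obtain ⟨C, hCd⟩ : ∃ C, C = 8 * K ^ 2 * lam / G := ⟨_, rfl⟩
  have hC : 0 < C := by rw [hCd]; positivity
  obtain ⟨κ, hκ⟩ : ∃ κ, κ = k 0 0 u u := ⟨_, rfl⟩
  rw [← hκ]
  have hmain : ∀ t, 0 < t → t < ε → t < ρ / 2 → t ≤ 1 → K * t ≤ 1 → 4 * K * lam * t ≤ G →
      m ≤ κ + (K + C) * t := by
    intro t ht htε htρ ht1 hKt hG4
    have hKt0 : 0 ≤ K * t := by positivity
    have h2 := hTop H a (b 0 0) (b t 0) (hfm _ _) (hfm _ _) e E hE u j (2 * K * t) (C * t ^ 2) h1
      (fun v => by rw [hEj]; exact hu v) (by rw [hEj]; exact hlam0) (by rw [hEj]; exact hn0)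
      (by positivity) (by positivity) (fun v => hb1 t 0 v ht.le le_rfl)
      (fun v => by
        have h3 := hb2 t 0 v ht.le le_rfl
        rw [add_zero] at h3
        refine h3.trans (mul_le_mul_of_nonneg_right ?_ ((hfm 0 0).nb v))
        have := exp_le hKt0 hKt
        linarith)
      (fun v hv => by
        have h3 := F.off t u v ht.le ht1 hv
        rw [h1, one_mul] at h3
        refine h3.trans (mul_le_mul_of_nonneg_right ?_ ((hfm 0 0).nb v))
        nlinarith [mul_nonneg hKt0 hKt0])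
      (by
        have h4 : (2 * K * t) ^ 2 / (C * t ^ 2) = G / (2 * lam) := by
          rw [hCd]
          field_simp
          ring
        rw [hEj, h4]
        have h5 : lam * (1 + 2 * K * t + G / (2 * lam)) = lam + 2 * K * lam * t + G / 2 := by
          field_simp
        rw [h5]
        linarith)
    have h3 := F.sec t u ht.le ht1
    rw [h1, ← hκ] at h3
    have h4 := hdec t ht htε htρ
    rw [hEj] at h2
    have hnn : 0 ≤ b t 0 u u + C * t ^ 2 := by
      have := (hfm t 0).nb u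
      positivity
    have h5 : lam ≤ Real.exp (-(m * t)) * lam * (1 + t * κ + (K + C) * t ^ 2) := by
      refine h2.trans ((mul_le_mul_of_nonneg_right h4 hnn).trans ?_)
      refine mul_le_mul_of_nonneg_left ?_ (by positivity)
      linarith
    have h6 : Real.exp (m * t) ≤ 1 + t * κ + (K + C) * t ^ 2 := by
      have h7 := mul_le_mul_of_nonneg_left h5 (Real.exp_pos (m * t)).le
      have h8 : Real.exp (m * t) * (Real.exp (-(m * t)) * lam * (1 + t * κ + (K + C) * t ^ 2)) =
          lam * (1 + t * κ + (K + C) * t ^ 2) := by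
        rw [Real.exp_neg]
        have := (Real.exp_pos (m * t)).ne'
        field_simp
      rw [h8, mul_comm] at h7
      exact le_of_mul_le_mul_left h7 hlam0
    have h9 := Real.add_one_le_exp (m * t)
    have h10 : t * m ≤ t * (κ + (K + C) * t) := by nlinarith
    exact le_of_mul_le_mul_left h10 ht
  refine le_of_forall_pos_le_add fun δ hδ => ?_
  have hKC : 0 < K + C := by positivity
  have hKl : 0 < 4 * K * lam := by positivity
  obtain ⟨t, htd⟩ : ∃ t, t = min (ε / 2) (min (ρ / 4) (min (1 / K) (min (G / (4 * K * lam))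
    (δ / (K + C))))) := ⟨_, rfl⟩
  have ht : 0 < t := by
    rw [htd]
    exact lt_min (by positivity) (lt_min (by positivity) (lt_min (by positivity)
      (lt_min (by positivity) (by positivity))))
  have h2 : t ≤ ε / 2 := by rw [htd]; exact min_le_left _ _
  have h3 : t ≤ ρ / 4 := by
    rw [htd]
    exact (min_le_right _ _).trans (min_le_left _ _)
  have h4 : t ≤ 1 / K := by
    rw [htd]
    exact (min_le_right _ _).trans ((min_le_right _ _).trans (min_le_left _ _))
  have h5 : t ≤ G / (4 * K * lam) := by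
    rw [htd]
    exact (min_le_right _ _).trans ((min_le_right _ _).trans ((min_le_right _ _).trans
      (min_le_left _ _)))
  have h6 : t ≤ δ / (K + C) := by
    rw [htd]
    exact (min_le_right _ _).trans ((min_le_right _ _).trans ((min_le_right _ _).trans
      (min_le_right _ _)))
  rw [le_div_iff₀ hK0] at h4
  rw [le_div_iff₀ hKl] at h5
  rw [le_div_iff₀ hKC] at h6
  have h7 := hmain t ht (by linarith) (by linarith) (by nlinarith) (by linarith) (by linarith)
  linarith

end Pool.Agent.Y865.NU
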